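import Pool.Agent.helper45.SGK.Spec

set_option autoImplicit false

namespace Pool.Agent.SGK

open Finset Pool.Agent.helper38.Neg Pool.Agent.helper55.NT
open Pool.Agent.SGC (Sg SCirc Ext Mv hw RN Solv stA stB)

/-- The pairs of an index and a set of its kids. -/
abbrev AVL_I {W W' : Type} (K : W' → Finset W) : Type := {p : W' × Finset W // p.2 ⊆ K p.1}

theorem AVL_inj {t : ℕ} {W : Type} (act : Act t W) (γ : Sg t) : Function.Injective (act.f γ) := by
  intro a b h
  have h1 := congrArg (act.f γ) h
  rwa [act.inv, act.inv] at h1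

theorem AVL_mem {t : ℕ} {W : Type} (act : Act t W) (γ : Sg t) (σ : Finset W) (w : W)
    [DecidableEq W] : act.f γ w ∈ σ.image (act.f γ) ↔ w ∈ σ := by
  constructor
  · intro h
    obtain ⟨u, hu, hw⟩ := Finset.mem_image.1 h
    rwa [AVL_inj act γ hw] at hu
  · intro h
    exact Finset.mem_image_of_mem _ h

theorem AVL_img2 {t : ℕ} {W : Type} (act : Act t W) (γ : Sg t) (σ : Finset W)
    [DecidableEq W] : (σ.image (act.f γ)).image (act.f γ) = σ := by
  rw [Finset.image_image]
  have : act.f γ ∘ act.f γ = id := funext fun w => act.inv γ w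
  rw [this, Finset.image_id]

theorem AVL_img {t : ℕ} {W W' : Type} (act : Act t W) (act' : Act t W') (K : W' → Finset W)
    (γ : Sg t) (h : ∀ w w', w ∈ K w' ↔ act.f γ w ∈ K (act'.f γ w')) (w' : W')
    [DecidableEq W] : (K w').image (act.f γ) = K (act'.f γ w') := by
  ext u
  rw [Finset.mem_image]
  constructor
  · rintro ⟨w, hw, rfl⟩
    exact (h w w').1 hw
  · intro hu
    refine ⟨act.f γ u, ?_, act.inv γ u⟩
    rw [h, act.inv]
    exact hu

open Classical in
/-- The action on the pairs. -/
noncomputable def AVL_act {t : ℕ} {W W' : Type} (V : Submodule (ZMod 2) (Sg t)) (act : Act t W)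
    (act' : Act t W') (K : W' → Finset W)
    (h : ∀ γ ∈ V, ∀ w w', w ∈ K w' ↔ act.f γ w ∈ K (act'.f γ w')) : Act t (AVL_I K) where
  f γ p := if hγ : γ ∈ V then ⟨(act'.f γ p.1.1, p.1.2.image (act.f γ)), by
      have h1 := Finset.image_subset_image (f := act.f γ) p.2
      rwa [AVL_img act act' K γ (h γ hγ)] at h1⟩ else p
  inv := by
    intro γ p
    by_cases hγ : γ ∈ V
    · simp only [dif_pos hγ]
      apply Subtype.ext
      apply Prod.ext
      · exact act'.inv γ p.1.1
      · exact AVL_img2 act γ p.1.2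
    · simp only [dif_neg hγ]

open Classical in
theorem AVL_act_f {t : ℕ} {W W' : Type} (V : Submodule (ZMod 2) (Sg t)) (act : Act t W)
    (act' : Act t W') (K : W' → Finset W)
    (h : ∀ γ ∈ V, ∀ w w', w ∈ K w' ↔ act.f γ w ∈ K (act'.f γ w')) (γ : Sg t) (hγ : γ ∈ V)
    (p : AVL_I K) : ((AVL_act V act act' K h).f γ p).1 = (act'.f γ p.1.1, p.1.2.image (act.f γ)) := by
  unfold AVL_act
  simp only [dif_pos hγ]

open Classical in
theorem AVL_card {W W' : Type} [Fintype W] [Fintype W'] (K : W' → Finset W) (M : ℕ)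
    (hM : ∀ w', (K w').card ≤ M) (inst : Fintype (AVL_I K)) :
    Fintype.card (AVL_I K) ≤ Fintype.card W' * 2 ^ M := by
  have hinj : Function.Injective (fun p : AVL_I K =>
      (⟨p.1.1, ⟨p.1.2, Finset.mem_powerset.2 p.2⟩⟩ : Σ w' : W', (K w').powerset)) := by
    intro p q hpq
    have h1 := congrArg (fun z : Σ w' : W', (K w').powerset => (z.1, (z.2 : Finset W))) hpq
    exact Subtype.ext h1
  refine le_trans (Fintype.card_le_of_injective _ hinj) ?_
  rw [Fintype.card_sigma]
  refine le_trans (Finset.sum_le_card_nsmul _ _ (2 ^ M) ?_) ?_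
  · intro w' _
    rw [Fintype.card_coe, Finset.card_powerset]
    exact Nat.pow_le_pow_right (by norm_num) (hM w')
  · rw [Finset.card_univ, smul_eq_mul]

/-- `σ` is the set of the true kids of `w'`, for an input on which `F' w'` is true. -/
def AVL_G {n : ℕ} {W W' : Type} (K : W' → Finset W) (F : W → Fn n) (F' : W' → Fn n) (w' : W')
    (σ : Finset W) : Prop :=
  ∃ x, (∀ w ∈ K w', w ∈ σ ↔ F w x = true) ∧ F' w' x = true

open Classical in
theorem AVL_G_fwd {k : ℕ} [NeZero k] {n : ℕ} {V : Submodule (ZMod 2) (Sg (tw k n))} {W W' : Type}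
    {act : Act (tw k n) W} {act' : Act (tw k n) W'} {K : W' → Finset W} {F : W → Fn n}
    {F' : W' → Fn n}
    (hK : ∀ γ ∈ V, ∀ w w', w ∈ K w' ↔ act.f γ w ∈ K (act'.f γ w'))
    (hF : ∀ γ ∈ V, ∀ w x, F w (x ∘ gl γ) = F (act.f γ w) x)
    (hF' : ∀ γ ∈ V, ∀ w' x, F' w' (x ∘ gl γ) = F' (act'.f γ w') x)
    {γ : Sg (tw k n)} (hγ : γ ∈ V) {w' : W'} {σ : Finset W} (h : AVL_G K F F' w' σ) :
    AVL_G K F F' (act'.f γ w') (σ.image (act.f γ)) := by
  obtain ⟨x, hx, hx'⟩ := h
  refine ⟨x ∘ gl γ, ?_, ?_⟩
  · intro u hu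
    have hu' : act.f γ u ∈ K w' := by
      rw [hK γ hγ, act.inv]
      exact hu
    rw [hF γ hγ, ← hx _ hu']
    have h1 := AVL_mem act γ σ (act.f γ u)
    rw [act.inv] at h1
    exact h1
  · rw [hF' γ hγ, act'.inv]
    exact hx'

open Classical in
theorem AVL_G_iff {k : ℕ} [NeZero k] {n : ℕ} {V : Submodule (ZMod 2) (Sg (tw k n))} {W W' : Type}
    {act : Act (tw k n) W} {act' : Act (tw k n) W'} {K : W' → Finset W} {F : W → Fn n}
    {F' : W' → Fn n}
    (hK : ∀ γ ∈ V, ∀ w w', w ∈ K w' ↔ act.f γ w ∈ K (act'.f γ w'))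
    (hF : ∀ γ ∈ V, ∀ w x, F w (x ∘ gl γ) = F (act.f γ w) x)
    (hF' : ∀ γ ∈ V, ∀ w' x, F' w' (x ∘ gl γ) = F' (act'.f γ w') x)
    {γ : Sg (tw k n)} (hγ : γ ∈ V) (w' : W') (σ : Finset W) :
    AVL_G K F F' w' σ ↔ AVL_G K F F' (act'.f γ w') (σ.image (act.f γ)) := by
  constructor
  · exact AVL_G_fwd hK hF hF' hγ
  · intro h
    have h1 := AVL_G_fwd hK hF hF' hγ h
    rwa [act'.inv, AVL_img2] at h1

theorem AVL (hAVI : AVI_stmt) (hAVR : AVR_stmt) (hAVS : AVS_stmt) : AVL_stmt := by
  classical
  intro k _ n V W W' _ _ act act' F m M K F' hA hM hK hF' hloc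
  have hF := hAVI k n V W act F m hA
  have instI : Fintype (AVL_I K) := Fintype.ofFinite _
  -- layer 1
  have h1 := hAVS k n V W W act act F m (fun w => {w}) (fun _ j => decide (j = 0))
    (fun w x => !F w x) hA
    (by
      intro γ _ w w'
      rw [Finset.mem_singleton, Finset.mem_singleton]
      exact ⟨fun h => by rw [h], fun h => AVL_inj act γ h⟩)
    (fun _ _ _ => rfl)
    (by
      intro w x
      by_cases h : F w x = true
      · rw [Finset.filter_singleton, if_pos h, Finset.card_singleton, h]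
        rfl
      · rw [Finset.filter_singleton, if_neg h, Finset.card_empty]
        rw [Bool.not_eq_true] at h
        rw [h]
        rfl)
  -- layer 2
  have h2 := hAVS k n V (W ⊕ W) (AVL_I K) (act.sum act) (AVL_act V act act' K hK)
    (Sum.elim F fun w x => !F w x) _
    (fun p => p.1.2.disjSum (K p.1.1 \ p.1.2)) (fun p j => decide (j = (K p.1.1).card))
    (fun p x => decide (∀ w ∈ K p.1.1, w ∈ p.1.2 ↔ F w x = true)) h1
    (by
      intro γ hγ w p
      rw [AVL_act_f V act act' K hK γ hγ p]
      rcases w with w | w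
      · change Sum.inl w ∈ _ ↔ Sum.inl (act.f γ w) ∈ _
        rw [Finset.inl_mem_disjSum, Finset.inl_mem_disjSum, AVL_mem]
      · change Sum.inr w ∈ _ ↔ Sum.inr (act.f γ w) ∈ _
        rw [Finset.inr_mem_disjSum, Finset.inr_mem_disjSum, Finset.mem_sdiff, Finset.mem_sdiff,
          AVL_mem, hK γ hγ w p.1.1])
    (by
      intro γ hγ p
      rw [AVL_act_f V act act' K hK γ hγ p]
      change (fun j => decide (j = (K (act'.f γ p.1.1)).card)) = _
      rw [← AVL_img act act' K γ (hK γ hγ) p.1.1, Finset.card_image_of_injective _ (AVL_inj act γ)])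
    (by
      intro p x
      have hc : (K p.1.1).card = (p.1.2.disjSum (K p.1.1 \ p.1.2)).card := by
        rw [Finset.card_disjSum, add_comm]
        exact (Finset.card_sdiff_add_card_eq_card p.2).symm
      rw [hc, decide_eq_decide, Finset.card_filter_eq_iff]
      constructor
      · intro h w hw
        rcases w with w | w
        · rw [Finset.inl_mem_disjSum] at hw
          exact (h w (p.2 hw)).1 hw
        · rw [Finset.inr_mem_disjSum, Finset.mem_sdiff] at hw
          have h3 : ¬ F w x = true := fun h4 => hw.2 ((h w hw.1).2 h4)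
          rw [Bool.not_eq_true] at h3
          change (!F w x) = true
          rw [h3]
          rfl
      · intro h w hw
        by_cases hs : w ∈ p.1.2
        · exact ⟨fun _ => h (Sum.inl w) (Finset.inl_mem_disjSum.2 hs), fun _ => hs⟩
        · have h3 := h (Sum.inr w) (Finset.inr_mem_disjSum.2 (Finset.mem_sdiff.2 ⟨hw, hs⟩))
          change (!F w x) = true at h3
          rw [Bool.not_eq_true'] at h3
          rw [h3]
          exact ⟨fun h4 => absurd h4 hs, fun h4 => absurd h4 (by decide)⟩)
  -- layer 3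
  have h3 := hAVS k n V ((W ⊕ W) ⊕ AVL_I K) W' _ act' _ _
    (fun w' => (univ.filter fun p : AVL_I K => p.1.1 = w' ∧ AVL_G K F F' w' p.1.2).map
      ⟨Sum.inr, Sum.inr_injective⟩) (fun _ j => decide (j ≠ 0)) F' h2
    (by
      intro γ hγ w w'
      rcases w with w | p
      · constructor
        · intro h
          simp only [Finset.mem_map, Function.Embedding.coeFn_mk, reduceCtorEq, and_false,
            exists_false] at h
        · intro h
          obtain ⟨a, _, ha⟩ := Finset.mem_map.1 h
          change Sum.inr a = Sum.inl _ at ha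
          cases ha
      · have e1 : ∀ (q : AVL_I K) (v' : W'), (Sum.inr q : (W ⊕ W) ⊕ AVL_I K) ∈
            (univ.filter fun p : AVL_I K => p.1.1 = v' ∧ AVL_G K F F' v' p.1.2).map
              ⟨Sum.inr, Sum.inr_injective⟩ ↔ q.1.1 = v' ∧ AVL_G K F F' v' q.1.2 := by
          intro q v'
          rw [Finset.mem_map]
          constructor
          · rintro ⟨a, ha, hq⟩
            have : a = q := Sum.inr_injective hq
            rw [← this]
            exact (Finset.mem_filter.1 ha).2
          · intro hq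
            exact ⟨q, Finset.mem_filter.2 ⟨Finset.mem_univ _, hq⟩, rfl⟩
        change Sum.inr p ∈ _ ↔ Sum.inr ((AVL_act V act act' K hK).f γ p) ∈ _
        rw [e1, e1, AVL_act_f V act act' K hK γ hγ p]
        change _ ↔ act'.f γ p.1.1 = act'.f γ w' ∧ AVL_G K F F' (act'.f γ w') (p.1.2.image (act.f γ))
        rw [← AVL_G_iff hK hF hF' hγ w' p.1.2]
        constructor
        · rintro ⟨ha, hb⟩
          exact ⟨by rw [ha], hb⟩
        · rintro ⟨ha, hb⟩
          exact ⟨AVL_inj act' γ ha, hb⟩)
    (fun _ _ _ => rfl)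
    (by
      intro w' x
      rw [Bool.eq_iff_iff, decide_eq_true_iff, Finset.card_ne_zero]
      constructor
      · intro h
        refine ⟨Sum.inr ⟨(w', (K w').filter fun w => F w x = true), Finset.filter_subset _ _⟩, ?_⟩
        rw [Finset.mem_filter]
        refine ⟨?_, ?_⟩
        · rw [Finset.mem_map]
          refine ⟨_, ?_, rfl⟩
          rw [Finset.mem_filter]
          refine ⟨Finset.mem_univ _, rfl, x, ?_, h⟩
          intro w hw
          rw [Finset.mem_filter]
          exact ⟨fun h4 => h4.2, fun h4 => ⟨hw, h4⟩⟩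
        · change decide _ = true
          rw [decide_eq_true_iff]
          intro w hw
          rw [Finset.mem_filter]
          exact ⟨fun h4 => h4.2, fun h4 => ⟨hw, h4⟩⟩
      · rintro ⟨q, hq⟩
        rw [Finset.mem_filter, Finset.mem_map] at hq
        obtain ⟨⟨p, hp, rfl⟩, hv⟩ := hq
        obtain ⟨hp1, x₀, hx₀, hx₀'⟩ := (Finset.mem_filter.1 hp).2
        change decide _ = true at hv
        rw [decide_eq_true_iff, hp1] at hv
        rw [← hx₀']
        apply hloc
        intro w hw
        rw [Bool.eq_iff_iff, ← hv w hw, ← hx₀ w hw])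
  have h4 := hAVR k n V _ (W ⊕ W') _ (act.sum act') _ _
    (Sum.elim (fun w => Sum.inl (Sum.inl (Sum.inl w))) Sum.inr) h3
    (by
      intro a b hab
      rcases a with a | a <;> rcases b with b | b
      · have : a = b := Sum.inl_injective (Sum.inl_injective (Sum.inl_injective hab))
        rw [this]
      · exact absurd hab (by intro h; cases h)
      · exact absurd hab (by intro h; cases h)
      · have : a = b := Sum.inr_injective hab
        rw [this])
    (by
      intro γ _ w
      rcases w with w | w <;> rfl)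
  obtain ⟨G, iG, C, emb, hc, hi, hv, hs⟩ := h4
  refine ⟨G, iG, C, emb, ?_, hi, ?_, hs⟩
  · refine le_trans hc ?_
    have h5 := AVL_card K M hM instI
    have h6 : Fintype.card W' * (2 ^ M + 1) = Fintype.card W' * 2 ^ M + Fintype.card W' := by ring
    rw [h6]
    omega
  · intro w x
    rw [hv]
    rcases w with w | w <;> rfl

end Pool.Agent.SGK
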