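import Pool.Agent.helper45.SGK.Spec

set_option autoImplicit false

namespace Pool.Agent.SGK

open Finset Pool.Agent.helper38.Neg Pool.Agent.helper55.NT
open Pool.Agent.SGC (Sg SCirc Ext Mv hw RN Solv stA stB)

/-- The class of a coordinate. -/
def GAD_q (a b c : ZMod 2) : Fin 4 :=
  if a ≠ a * b + b * c + c * a then 0 else if b ≠ a * b + b * c + c * a then 1
  else if c ≠ a * b + b * c + c * a then 2 else 3

theorem GAD_q0 : ∀ a b c : ZMod 2,
    (if GAD_q a b c = 0 then (1 : ZMod 2) else 0) + (a * b + b * c + c * a) = a := by decide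

theorem GAD_q1 : ∀ a b c : ZMod 2,
    (if GAD_q a b c = 1 then (1 : ZMod 2) else 0) + (a * b + b * c + c * a) = b := by decide

theorem GAD_q2 : ∀ a b c : ZMod 2,
    (if GAD_q a b c = 2 then (1 : ZMod 2) else 0) + (a * b + b * c + c * a) = c := by decide

theorem GAD_tr {k : ℕ} (P A₀ : Finset (Wd k)) (m z : Wd k) :
    z ∈ tr P (A₀.image fun a => a + m) ↔ z + m ∈ tr P A₀ := by
  unfold tr
  rw [Finset.mem_filter, Finset.mem_filter]
  constructor
  · rintro ⟨_, h⟩
    refine ⟨Finset.mem_univ _, fun a ha => ?_⟩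
    have h1 := h (a + m) (Finset.mem_image_of_mem _ ha)
    rwa [add_comm a m, ← add_assoc] at h1
  · rintro ⟨_, h⟩
    refine ⟨Finset.mem_univ _, fun a ha => ?_⟩
    obtain ⟨a', ha', rfl⟩ := Finset.mem_image.1 ha
    have h1 := h a' ha'
    rwa [add_comm a' m, ← add_assoc]

theorem GAD : GAD_stmt := by
  intro k P hP
  unfold Rigid at hP
  push Not at hP
  obtain ⟨A₀, haff, hmaj⟩ := hP
  unfold MajClosed at hmaj
  push Not at hmaj
  obtain ⟨a, ha, b, hb, c, hc, hm⟩ := hmaj
  refine ⟨⟨A₀.image fun a' => a' + maj3 a b c, ?_, fun j => GAD_q (a j) (b j) (c j), ?_, ?_⟩⟩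
  · intro x hx y hy z hz
    rw [GAD_tr] at hx hy hz ⊢
    have h1 := haff _ hx _ hy _ hz
    have h2 : x + maj3 a b c + (y + maj3 a b c) + (z + maj3 a b c) = x + y + z + maj3 a b c := by
      funext j
      have h : ∀ x y z m : ZMod 2, x + m + (y + m) + (z + m) = x + y + z + m := by decide
      exact h _ _ _ _
    rwa [h2] at h1
  · intro m hm3
    rw [GAD_tr]
    have h0 : m = 0 ∨ m = 1 ∨ m = 2 := by
      revert hm3
      revert m
      decide
    rcases h0 with rfl | rfl | rfl
    · have h1 : (fun j => if GAD_q (a j) (b j) (c j) = 0 then (1 : ZMod 2) else 0) + maj3 a b c = a :=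
        funext fun j => GAD_q0 (a j) (b j) (c j)
      rw [h1]
      exact ha
    · have h1 : (fun j => if GAD_q (a j) (b j) (c j) = 1 then (1 : ZMod 2) else 0) + maj3 a b c = b :=
        funext fun j => GAD_q1 (a j) (b j) (c j)
      rw [h1]
      exact hb
    · have h1 : (fun j => if GAD_q (a j) (b j) (c j) = 2 then (1 : ZMod 2) else 0) + maj3 a b c = c :=
        funext fun j => GAD_q2 (a j) (b j) (c j)
      rw [h1]
      exact hc
  · intro h
    rw [GAD_tr, zero_add] at h
    exact hm h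

end Pool.Agent.SGK
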