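import Pool.Agent.helper45.SGK.Spec

set_option autoImplicit false

namespace Pool.Agent.SGK

open Finset Pool.Agent.helper38.Neg Pool.Agent.helper55.NT
open Pool.Agent.SGC (Sg SCirc Ext Mv hw RN Solv stA stB)

theorem RIG_per {k : ℕ} (R : Finset (Wd k)) (z : Wd k) :
    Per R z ↔ ∀ d ∈ R, d + z ∈ R := by
  unfold Per shf
  constructor
  · intro h d hd
    rw [← h, Finset.mem_filter] at hd
    exact hd.2
  · intro h
    ext w
    rw [Finset.mem_filter]
    constructor
    · rintro ⟨_, hw⟩
      have h1 := h _ hw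
      have h2 : w + z + z = w := by
        funext j
        have : ∀ a b : ZMod 2, a + b + b = a := by decide
        exact this _ _
      rwa [h2] at h1
    · intro hw
      exact ⟨Finset.mem_univ _, h w hw⟩

theorem RIG_tr {k : ℕ} (P A : Finset (Wd k)) (z : Wd k) :
    z ∈ tr P ((tr P A ×ˢ A).image fun q => q.1 + q.2) ↔ Per (tr P A) z := by
  rw [RIG_per]
  constructor
  · intro h d hd
    have h1 := (Finset.mem_filter.1 h).2
    refine Finset.mem_filter.2 ⟨Finset.mem_univ _, fun a ha => ?_⟩
    have h2 := h1 (d + a) (Finset.mem_image.2 ⟨(d, a), Finset.mem_product.2 ⟨hd, ha⟩, rfl⟩)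
    have h3 : d + z + a = z + (d + a) := by ring
    rwa [h3]
  · intro h
    refine Finset.mem_filter.2 ⟨Finset.mem_univ _, fun a ha => ?_⟩
    obtain ⟨⟨d, a'⟩, hq, rfl⟩ := Finset.mem_image.1 ha
    obtain ⟨hd, ha'⟩ := Finset.mem_product.1 hq
    have h1 := (Finset.mem_filter.1 (h d hd)).2 a' ha'
    have h3 : z + (d + a') = d + z + a' := by ring
    change z + (d + a') ∈ P
    rw [h3]
    exact h1

theorem RIG_add {k : ℕ} (R : Finset (Wd k)) {y z : Wd k} (hy : Per R y) (hz : Per R z) :
    Per R (y + z) := by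
  rw [RIG_per] at hy hz ⊢
  intro d hd
  rw [← add_assoc]
  exact hz _ (hy _ hd)

theorem RIG_zero {k : ℕ} (R : Finset (Wd k)) : Per R 0 := by
  rw [RIG_per]
  intro d hd
  rwa [add_zero]

theorem RIG_z2 (x : ZMod 2) : x = 0 ∨ x = 1 := by
  revert x
  decide

theorem RIG_ne {x y : ZMod 2} (h : x ≠ y) : x = y + 1 := by
  revert h
  revert x y
  decide

theorem RIG (hBPK : BPK_stmt) : RIG_stmt := by
  intro k _ P A u hP hu
  have hmaj : MajClosed (tr P ((tr P A ×ˢ A).image fun q => q.1 + q.2)) := by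
    apply hP
    intro a ha b hb c hc
    rw [RIG_tr] at ha hb hc ⊢
    exact RIG_add _ (RIG_add _ ha hb) hc
  rw [← RIG_tr]
  apply hBPK k _ u hmaj
  intro j j'
  have key : ∀ (i : Fin k), u i = 1 → ∃ d, Per (tr P A) d ∧ d i = 1 := by
    intro i hi
    by_contra hcon
    push Not at hcon
    have h1 := hu i none (fun d hd => by
      rcases RIG_z2 (d i) with h | h
      · exact h
      · exact absurd h (hcon d hd))
    change u i = 0 at h1
    rw [hi] at h1
    exact absurd h1 (by decide)
  have key2 : u j ≠ u j' → ∃ d, Per (tr P A) d ∧ d j ≠ d j' := by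
    intro hne
    by_contra hcon
    push Not at hcon
    exact hne (hu j (some j') hcon)
  have fin : ∀ s, Per (tr P A) s → s j = u j → s j' = u j' →
      ∃ s ∈ tr P ((tr P A ×ˢ A).image fun q => q.1 + q.2), s j = u j ∧ s j' = u j' := by
    intro s hs h1 h2
    exact ⟨s, (RIG_tr P A s).2 hs, h1, h2⟩
  rcases RIG_z2 (u j) with h0 | h0 <;> rcases RIG_z2 (u j') with h0' | h0'
  · exact fin 0 (RIG_zero _) h0.symm h0'.symm
  · obtain ⟨d1, hd1, e1⟩ := key j' h0'
    obtain ⟨d2, hd2, e2⟩ := key2 (by rw [h0, h0']; decide)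
    rcases RIG_z2 (d1 j) with f1 | f1
    · exact fin d1 hd1 (by rw [f1, h0]) (by rw [e1, h0'])
    · rcases RIG_z2 (d2 j) with f2 | f2
      · exact fin d2 hd2 (by rw [f2, h0]) (by
          rw [f2] at e2
          rcases RIG_z2 (d2 j') with g | g
          · exact absurd g.symm e2
          · rw [g, h0'])
      · refine fin (d1 + d2) (RIG_add _ hd1 hd2) ?_ ?_
        · rw [Pi.add_apply, f1, f2, h0]
          decide
        · rw [f2] at e2
          rcases RIG_z2 (d2 j') with g | g
          · rw [Pi.add_apply, e1, g, h0']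
            decide
          · exact absurd g.symm e2
  · obtain ⟨d1, hd1, e1⟩ := key j h0
    obtain ⟨d2, hd2, e2⟩ := key2 (by rw [h0, h0']; decide)
    rcases RIG_z2 (d1 j') with f1 | f1
    · exact fin d1 hd1 (by rw [e1, h0]) (by rw [f1, h0'])
    · rcases RIG_z2 (d2 j') with f2 | f2
      · exact fin d2 hd2 (by
          rw [f2] at e2
          rcases RIG_z2 (d2 j) with g | g
          · exact absurd g e2
          · rw [g, h0]) (by rw [f2, h0'])
      · refine fin (d1 + d2) (RIG_add _ hd1 hd2) ?_ ?_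
        · rw [f2] at e2
          rcases RIG_z2 (d2 j) with g | g
          · rw [Pi.add_apply, e1, g, h0]
            decide
          · exact absurd g e2
        · rw [Pi.add_apply, f1, f2, h0']
          decide
  · obtain ⟨d1, hd1, e1⟩ := key j h0
    obtain ⟨d2, hd2, e2⟩ := key j' h0'
    rcases RIG_z2 (d1 j') with f1 | f1
    · rcases RIG_z2 (d2 j) with f2 | f2
      · refine fin (d1 + d2) (RIG_add _ hd1 hd2) ?_ ?_
        · rw [Pi.add_apply, e1, f2, h0]
          decide
        · rw [Pi.add_apply, f1, e2, h0']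
          decide
      · exact fin d2 hd2 (by rw [f2, h0]) (by rw [e2, h0'])
    · exact fin d1 hd1 (by rw [e1, h0]) (by rw [f1, h0'])

end Pool.Agent.SGK
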