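import Pool.Agent.helper45.SGK.Spec

set_option autoImplicit false

namespace Pool.Agent.SGK

open Finset Pool.Agent.helper38.Neg Pool.Agent.helper55.NT
open Pool.Agent.SGC (Sg SCirc Ext Mv hw RN Solv stA stB)

theorem SEK_z2 (x : ZMod 2) : x = 0 ∨ x = 1 := by
  revert x
  decide

/-- The set of the words `u : Fin 4 → ZMod 2` with `u ∘ q` in the affine set. -/
def SEK_T {k : ℕ} {P : Finset (Wd k)} (G : Gad P) (u : Fin 4 → ZMod 2) : Prop :=
  (fun j => u (G.q j)) ∈ tr P G.A

theorem SEK_Tadd {k : ℕ} {P : Finset (Wd k)} (G : Gad P) {u v w : Fin 4 → ZMod 2}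
    (hu : SEK_T G u) (hv : SEK_T G v) (hw : SEK_T G w) : SEK_T G (u + v + w) :=
  G.aff _ hu _ hv _ hw

theorem SEK_Te {k : ℕ} {P : Finset (Wd k)} (G : Gad P) (m : Fin 4) (hm : m ≠ 3) :
    SEK_T G (Pi.single m 1) := by
  have h := G.mem m hm
  unfold SEK_T
  have e : (fun j => (Pi.single m (1 : ZMod 2) : Fin 4 → ZMod 2) (G.q j)) =
      fun j => if G.q j = m then 1 else 0 := by
    funext j
    rw [Pi.single_apply]
  rw [e]
  exact h

theorem SEK_T0 {k : ℕ} {P : Finset (Wd k)} (G : Gad P) : ¬ SEK_T G 0 := G.zero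

theorem SEK_even {k : ℕ} {P : Finset (Wd k)} (G : Gad P) (u : Fin 4 → ZMod 2)
    (h3 : u 3 = 0) (hu : SEK_T G u) : u 0 + u 1 + u 2 = 1 := by
  rcases SEK_z2 (u 0 + u 1 + u 2) with hs | hs
  swap
  · exact hs
  exfalso
  have hcase : u = 0 ∨ u = Pi.single 0 1 + Pi.single 1 1 ∨ u = Pi.single 0 1 + Pi.single 2 1 ∨
      u = Pi.single 1 1 + Pi.single 2 1 := by
    clear hu
    revert u
    decide
  have hkey : ∀ a b : Fin 4, a ≠ 3 → b ≠ 3 → u ≠ Pi.single a 1 + Pi.single b 1 := by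
    intro a b ha hb hab
    have h1 := SEK_Tadd G hu (SEK_Te G a ha) (SEK_Te G b hb)
    have h2 : u + Pi.single a 1 + Pi.single b 1 = 0 := by
      rw [hab]
      funext i
      have : ∀ x y : ZMod 2, x + y + x + y = 0 := by decide
      exact this _ _
    rw [h2] at h1
    exact SEK_T0 G h1
  rcases hcase with h | h | h | h
  · rw [h] at hu
    exact SEK_T0 G hu
  · exact hkey 0 1 (by decide) (by decide) h
  · exact hkey 0 2 (by decide) (by decide) h
  · exact hkey 1 2 (by decide) (by decide) h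

theorem SEK_eps {k : ℕ} {P : Finset (Wd k)} (G : Gad P) :
    ∃ ε : ZMod 2, ∀ u, SEK_T G u → u 0 + u 1 + u 2 + ε * u 3 = 1 := by
  by_cases h : ∃ u, SEK_T G u ∧ u 3 = 1 ∧ u 0 + u 1 + u 2 = 0
  · obtain ⟨v, hv, hv3, hvs⟩ := h
    refine ⟨1, fun u hu => ?_⟩
    rcases SEK_z2 (u 3) with h3 | h3
    · rw [h3, SEK_even G u h3 hu]
      decide
    · have h1 := SEK_Tadd G hu hv (SEK_Te G 0 (by decide))
      have h2 := SEK_even G _ (by
        change u 3 + v 3 + (Pi.single (0 : Fin 4) (1 : ZMod 2) : Fin 4 → ZMod 2) 3 = 0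
        rw [h3, hv3]
        decide) h1
      have h4 : (u + v + Pi.single 0 1 : Fin 4 → ZMod 2) 0 + (u + v + Pi.single 0 1 : Fin 4 → ZMod 2) 1 +
          (u + v + Pi.single 0 1 : Fin 4 → ZMod 2) 2 =
          (u 0 + u 1 + u 2) + (v 0 + v 1 + v 2) + 1 := by
        simp only [Pi.add_apply, Pi.single_eq_same]
        have e1 : (Pi.single (0 : Fin 4) (1 : ZMod 2) : Fin 4 → ZMod 2) 1 = 0 := by decide
        have e2 : (Pi.single (0 : Fin 4) (1 : ZMod 2) : Fin 4 → ZMod 2) 2 = 0 := by decide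
        rw [e1, e2]
        ring
      rw [h4, hvs] at h2
      rw [h3]
      rcases SEK_z2 (u 0 + u 1 + u 2) with h5 | h5
      · rw [h5]
        decide
      · rw [h5] at h2
        exact absurd h2 (by decide)
  · push Not at h
    refine ⟨0, fun u hu => ?_⟩
    rw [zero_mul, add_zero]
    rcases SEK_z2 (u 3) with h3 | h3
    · exact SEK_even G u h3 hu
    · rcases SEK_z2 (u 0 + u 1 + u 2) with h5 | h5
      · exact absurd h5 (h u hu h3)
      · exact h5

theorem SEK_eq {k : ℕ} {P : Finset (Wd k)} (G : Gad P) (β : ZMod 2) (z : Wd k) :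
    (∀ a ∈ G.Q β, z + a ∈ P) ↔ z + G.e0 β ∈ tr P G.A := by
  constructor
  · intro h
    refine Finset.mem_filter.2 ⟨Finset.mem_univ _, fun a ha => ?_⟩
    have h1 := h (G.e0 β + a) (Finset.mem_filter.2 ⟨Finset.mem_univ _, fun z' hz' => ?_⟩)
    · rwa [add_assoc]
    · rw [← add_assoc]
      exact (Finset.mem_filter.1 hz').2 a ha
  · intro h a ha
    exact (Finset.mem_filter.1 ha).2 z h

theorem SEK_sat {k : ℕ} [NeZero k] {n r : ℕ} {P : Finset (Wd k)} (G : Gad P)
    (v : Fin r → Fin 3 → Fin (tw k n)) (w : Fin (tw k n)) (b : Fin r → ZMod 2) :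
    SAT k P n (G.inst v w b) ↔ ∃ α : Sg (tw k n), ∀ e,
      SEK_T G ((fun l => α (v4 (v e) w l)) + Pi.single 0 (b e)) := by
  have hT : ∀ (α : Sg (tw k n)) (e : Fin r), SEK_T G ((fun l => α (v4 (v e) w l)) + Pi.single 0 (b e)) ↔
      ∀ a ∈ G.Q (b e), (fun j => α (v4 (v e) w (G.q j))) + a ∈ P := by
    intro α e
    rw [SEK_eq]
    unfold SEK_T
    have e1 : (fun j => ((fun l => α (v4 (v e) w l)) + Pi.single 0 (b e) : Fin 4 → ZMod 2) (G.q j)) =
        (fun j => α (v4 (v e) w (G.q j))) + G.e0 (b e) := by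
      funext j
      unfold Gad.e0
      rw [Pi.add_apply, Pi.add_apply, Pi.single_apply]
    rw [e1]
  constructor
  · rintro ⟨α, hα⟩
    refine ⟨α, fun e => (hT α e).2 fun a ha => ?_⟩
    exact hα (v4 (v e) w ∘ G.q, a) (decide_eq_true ⟨e, a, rfl, ha⟩)
  · rintro ⟨α, hα⟩
    refine ⟨α, fun c hc => ?_⟩
    obtain ⟨e, a, hp, ha⟩ := of_decide_eq_true hc
    have hc' := ps_injective hp
    rw [← hc']
    exact (hT α e).1 (hα e) a ha

theorem SEK : SEK_stmt := by
  intro k _ n r P G v w hr hM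
  constructor
  · rw [SEK_sat]
    refine ⟨0, fun e => ?_⟩
    have h : (fun l => (0 : Sg (tw k n)) (v4 (v e) w l)) + Pi.single 0 ((1 : Fin r → ZMod 2) e) =
        Pi.single (0 : Fin 4) (1 : ZMod 2) := by
      funext l
      simp
    rw [h]
    exact SEK_Te G 0 (by decide)
  · intro f
    rw [SEK_sat]
    rintro ⟨α, hα⟩
    obtain ⟨ε, hε⟩ := SEK_eps G
    have hr0 : ((r : ℕ) : ZMod 2) = 0 := by
      obtain ⟨m, rfl⟩ := hr
      push_cast
      have : ∀ x : ZMod 2, x + x = 0 := by decide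
      exact this _
    have h4 : ∑ e, (1 + Pi.single f 1 : Fin r → ZMod 2) e = 1 := by
      simp only [Pi.add_apply, Pi.one_apply]
      rw [Finset.sum_add_distrib, Finset.sum_const, Finset.card_univ, Fintype.card_fin, nsmul_eq_mul,
        hr0, zero_mul, zero_add]
      simp
    generalize (1 + Pi.single f 1 : Fin r → ZMod 2) = b at hα h4
    have h1 : ∀ e, (α (v e 0) + α (v e 1) + α (v e 2)) + b e + ε * α w = 1 := by
      intro e
      have h2 := hε _ (hα e)
      have e0 : ((fun l => α (v4 (v e) w l)) + Pi.single 0 (b e) : Fin 4 → ZMod 2) 0 =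
          α (v e 0) + b e := by
        rw [Pi.add_apply, Pi.single_eq_same]
        rfl
      have e1 : ((fun l => α (v4 (v e) w l)) + Pi.single 0 (b e) : Fin 4 → ZMod 2) 1 =
          α (v e 1) := by
        rw [Pi.add_apply, Pi.single_eq_of_ne (by decide), add_zero]
        rfl
      have e2 : ((fun l => α (v4 (v e) w l)) + Pi.single 0 (b e) : Fin 4 → ZMod 2) 2 =
          α (v e 2) := by
        rw [Pi.add_apply, Pi.single_eq_of_ne (by decide), add_zero]
        rfl
      have e3 : ((fun l => α (v4 (v e) w l)) + Pi.single 0 (b e) : Fin 4 → ZMod 2) 3 =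
          α w := by
        rw [Pi.add_apply, Pi.single_eq_of_ne (by decide), add_zero]
        rfl
      rw [e0, e1, e2, e3] at h2
      rw [← h2]
      ring
    have h3 : ∑ e, ((α (v e 0) + α (v e 1) + α (v e 2)) + b e + ε * α w) =
        ∑ e : Fin r, (1 : ZMod 2) := Finset.sum_congr rfl fun e _ => h1 e
    have hMv : ∑ e, (α (v e 0) + α (v e 1) + α (v e 2)) = 0 := by
      rw [← hM α]
      apply Finset.sum_congr rfl
      intro e _
      unfold Mv
      rw [Fin.sum_univ_three]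
    rw [Finset.sum_add_distrib, Finset.sum_add_distrib, hMv, Finset.sum_const, Finset.sum_const,
      Finset.card_univ, Fintype.card_fin, nsmul_eq_mul, nsmul_eq_mul, hr0, zero_mul, zero_mul,
      add_zero, zero_add] at h3
    rw [h4] at h3
    exact absurd h3 (by decide)

end Pool.Agent.SGK
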