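import Pool.Agent.helper45.SGK.Spec
import Pool.Agent.helper38.Neg.Nondet

/-!
Row SNK of the project SGK (MP_069684_lc): `SAT k P` is in `NP/Poly` (port of Pool/Agent/helper80/SGC/SNP.lean).
-/

set_option autoImplicit false

namespace Pool.Agent.SGK

open Finset Pool.Agent.helper38.Neg Pool.Agent.helper55.NT
open Pool.Agent.SGC (Sg SCirc Ext Mv hw RN Solv stA stB)

/-- the value of a literal is `b` -/
def SNK_lit {k n : ℕ} [NeZero k] (c : Cl k (tw k n)) (j : Fin k) (b : ZMod 2)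
    (z : Fin n ⊕ Fin (tw k n) → Bool) : Bool :=
  if c.2 j + b = 1 then z (Sum.inr (c.1 j)) else !(z (Sum.inr (c.1 j)))

/-- the word is `w` -/
noncomputable def SNK_word {k n : ℕ} [NeZero k] (c : Cl k (tw k n)) (w : Wd k)
    (z : Fin n ⊕ Fin (tw k n) → Bool) : Bool :=
  allB fun j : Fin k => SNK_lit c j (w j) z

/-- the check of one constraint -/
noncomputable def SNK_chk {k n : ℕ} [NeZero k] (P : Finset (Wd k)) (c : Cl k (tw k n))
    (z : Fin n ⊕ Fin (tw k n) → Bool) : Bool :=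
  !(z (Sum.inl (ps c))) || anyB fun w : {w : Wd k // w ∈ P} => SNK_word c w.1 z

/-- the verifier -/
noncomputable def SNK_ver {k : ℕ} [NeZero k] (P : Finset (Wd k)) (n : ℕ)
    (z : Fin n ⊕ Fin (tw k n) → Bool) : Bool :=
  allB fun c : Cl k (tw k n) => SNK_chk P c z

theorem SNK_lit_cost {k n : ℕ} [NeZero k] (c : Cl k (tw k n)) (j : Fin k) (b : ZMod 2) :
    HasCost (SNK_lit c j b) 1 := by
  by_cases h : c.2 j + b = 1
  · have e : SNK_lit c j b = fun z => z (Sum.inr (c.1 j)) := by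
      funext z
      unfold SNK_lit
      rw [if_pos h]
    rw [e]
    exact (HasCost.var _).mono (by omega)
  · have e : SNK_lit c j b = fun z => !(z (Sum.inr (c.1 j))) := by
      funext z
      unfold SNK_lit
      rw [if_neg h]
    rw [e]
    exact (HasCost.var (Sum.inr (c.1 j))).not

theorem SNK_word_cost {k n : ℕ} [NeZero k] (c : Cl k (tw k n)) (w : Wd k) :
    HasCost (SNK_word c w) (k * 2 + 1) := by
  have h1 := HasCost.all (fun (j : Fin k) z => SNK_lit c j (w j) z) 1
    fun j => SNK_lit_cost c j (w j)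
  refine HasCost.mono h1 ?_
  rw [Fintype.card_fin]

theorem SNK_chk_cost {k n : ℕ} [NeZero k] (P : Finset (Wd k)) (c : Cl k (tw k n)) :
    HasCost (SNK_chk P c) (P.card * (k * 2 + 1 + 1) + 3) := by
  have h1 : HasCost (fun z : Fin n ⊕ Fin (tw k n) → Bool =>
      anyB fun w : {w : Wd k // w ∈ P} => SNK_word c w.1 z)
      (Fintype.card {w : Wd k // w ∈ P} * (k * 2 + 1 + 1) + 1) :=
    HasCost.any (fun (w : {w : Wd k // w ∈ P}) z => SNK_word c w.1 z) (k * 2 + 1)
      fun w => SNK_word_cost c w.1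
  have h2 := ((HasCost.var (ι := Fin n ⊕ Fin (tw k n)) (Sum.inl (ps c))).not).or h1
  refine h2.mono ?_
  rw [Fintype.card_coe]
  omega

theorem SNK_card (k n : ℕ) [NeZero k] : Fintype.card (Cl k (tw k n)) ≤ n := by
  have h : Fintype.card (Cl k (tw k n)) = tw k n ^ k * 2 ^ k := by
    simp [Cl, ZMod.card]
  rw [h]
  exact tw_le k n

theorem SNK_ver_cost {k : ℕ} [NeZero k] (P : Finset (Wd k)) (n : ℕ) :
    HasCost (SNK_ver P n) ((P.card * (k * 2 + 1 + 1) + 4) * (n + 1)) := by
  have h := HasCost.all (fun (c : Cl k (tw k n)) z => SNK_chk P c z)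
    (P.card * (k * 2 + 1 + 1) + 3) fun c => SNK_chk_cost P c
  refine HasCost.mono h ?_
  have h1 := SNK_card k n
  have h2 : Fintype.card (Cl k (tw k n)) * (P.card * (k * 2 + 1 + 1) + 3 + 1) ≤
      n * (P.card * (k * 2 + 1 + 1) + 3 + 1) := Nat.mul_le_mul_right _ h1
  nlinarith

theorem SNK_val (z : ZMod 2) : z = 0 ∨ z = 1 := by
  revert z
  decide

theorem SNK_lit_iff {k n : ℕ} [NeZero k] (c : Cl k (tw k n)) (j : Fin k) (b : ZMod 2)
    (x : Fin n → Bool) (y : Fin (tw k n) → Bool) :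
    SNK_lit c j b (Sum.elim x y) = true ↔
      (if y (c.1 j) = true then (1 : ZMod 2) else 0) + c.2 j = b := by
  unfold SNK_lit
  rw [Sum.elim_inr]
  by_cases h : y (c.1 j) = true
  · rw [if_pos h, h]
    rcases SNK_val (c.2 j) with h1 | h1 <;> rcases SNK_val b with h2 | h2 <;> rw [h1, h2] <;> decide
  · rw [if_neg h]
    rw [Bool.not_eq_true] at h
    rw [h]
    rcases SNK_val (c.2 j) with h1 | h1 <;> rcases SNK_val b with h2 | h2 <;> rw [h1, h2] <;> decide

theorem SNK_chk_iff {k n : ℕ} [NeZero k] (P : Finset (Wd k)) (c : Cl k (tw k n))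
    (x : Fin n → Bool) (y : Fin (tw k n) → Bool) :
    SNK_chk P c (Sum.elim x y) = true ↔ (x (ps c) = true →
      (fun j => (if y (c.1 j) = true then (1 : ZMod 2) else 0) + c.2 j) ∈ P) := by
  unfold SNK_chk
  rw [Bool.or_eq_true, anyB_iff, Sum.elim_inl]
  constructor
  · rintro (h | ⟨w, hw⟩) hx
    · rw [hx] at h
      exact absurd h (by simp)
    · unfold SNK_word at hw
      rw [allB_iff] at hw
      have e : (fun j => (if y (c.1 j) = true then (1 : ZMod 2) else 0) + c.2 j) = w.1 :=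
        funext fun j => (SNK_lit_iff c j (w.1 j) x y).1 (hw j)
      rw [e]
      exact w.2
  · intro h
    by_cases hx : x (ps c) = true
    · right
      refine ⟨⟨_, h hx⟩, ?_⟩
      unfold SNK_word
      rw [allB_iff]
      intro j
      exact (SNK_lit_iff c j _ x y).2 rfl
    · left
      simpa using hx

theorem SNK_correct {k : ℕ} [NeZero k] (P : Finset (Wd k)) (n : ℕ) (x : Fin n → Bool) :
    SAT k P n x ↔ ∃ y : Fin (tw k n) → Bool, SNK_ver P n (Sum.elim x y) = true := by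
  constructor
  · rintro ⟨α, hα⟩
    refine ⟨fun i => decide (α i = 1), ?_⟩
    unfold SNK_ver
    rw [allB_iff]
    intro c
    rw [SNK_chk_iff]
    intro hx
    have h := hα c hx
    have e : (fun j => (if decide (α (c.1 j) = 1) = true then (1 : ZMod 2) else 0) + c.2 j) =
        fun j => α (c.1 j) + c.2 j := by
      funext j
      rcases SNK_val (α (c.1 j)) with h1 | h1 <;> rw [h1] <;> simp
    rw [e]
    exact h
  · rintro ⟨y, hy⟩
    unfold SNK_ver at hy
    rw [allB_iff] at hy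
    refine ⟨fun i => if y i = true then 1 else 0, fun c hc => ?_⟩
    exact (SNK_chk_iff P c x y).1 (hy c) hc

theorem SNK : SNK_stmt := by
  intro k _ P
  refine ⟨(Polynomial.C (P.card * (k * 2 + 1 + 1) + 4)) * (Polynomial.X + 1), fun n => ?_⟩
  have hev : ((Polynomial.C (P.card * (k * 2 + 1 + 1) + 4)) * (Polynomial.X + 1) :
      Polynomial ℕ).eval n = (P.card * (k * 2 + 1 + 1) + 4) * (n + 1) := by
    simp
  rw [hev]
  have hW : tw k n ≤ (P.card * (k * 2 + 1 + 1) + 4) * (n + 1) := by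
    have h1 : tw k n ≤ n := Nat.findGreatest_le n
    nlinarith [Nat.zero_le (P.card * (k * 2 + 1 + 1) * (n + 1))]
  let φ : Fin n ⊕ Fin (tw k n) → Fin (n + tw k n) := Sum.elim (Fin.castAdd _) (Fin.natAdd n)
  obtain ⟨L, h1, h2, h3⟩ := (SNK_ver_cost P n).rename φ
  obtain ⟨C, hC⟩ := h1.toCircuit
  obtain ⟨o, ho⟩ := hC _ h3
  refine ⟨tw k n, L.length, hW, h2, C, o, fun x => ?_⟩
  rw [SNK_correct]
  have hφ : ∀ y : Fin (tw k n) → Bool, (Fin.append x y) ∘ φ = Sum.elim x y := by
    intro y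
    funext a
    rcases a with i | w
    · simp [φ]
    · simp [φ]
  constructor
  · rintro ⟨y, hy⟩
    refine ⟨y, ?_⟩
    rw [ho, hφ]
    exact hy
  · rintro ⟨y, hy⟩
    rw [ho, hφ] at hy
    exact ⟨_, hy⟩

end Pool.Agent.SGK
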