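import Pool.Agent.helper45.SGK.Spec

set_option autoImplicit false

namespace Pool.Agent.SGK

open Finset Pool.Agent.helper38.Neg Pool.Agent.helper55.NT
open Pool.Agent.SGC (Sg SCirc Ext Mv hw RN Solv stA stB)

/-- some function of the family is true -/
def TRC_any {n : ℕ} {ι : Type} (S : Finset ι) (g : ι → Fn n) : Fn n :=
  fun x => decide (∃ i ∈ S, g i x = true)

theorem TRC_any_iff {n : ℕ} {ι : Type} (S : Finset ι) (g : ι → Fn n) (x : Fin n → Bool) :
    TRC_any S g x = true ↔ ∃ i ∈ S, g i x = true := by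
  unfold TRC_any
  exact decide_eq_true_iff

/-- walks with at most `i` steps -/
def TRC_D {n M : ℕ} (E : Fin M → Fin M → Fn n) : ℕ → Fin M → Fin M → Fn n
  | 0, u, v => fun _ => decide (u = v)
  | i + 1, u, v => fun x => TRC_D E i u v x ||
      TRC_any (univ : Finset (Fin M)) (fun w x => TRC_D E i u w x && E w v x) x

theorem TRC_or {n : ℕ} {ι : Type} [DecidableEq ι] {F : Set (Fn n)} (S : Finset ι) (g : ι → Fn n)
    (h : ∀ i ∈ S, g i ∈ F) :
    Rel F (S.card + 1) 0 {TRC_any S g} := by
  unfold TRC_any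
  induction S using Finset.induction_on with
  | empty =>
    have e : (fun x => decide (∃ i ∈ (∅ : Finset ι), g i x = true)) = fun _ => false := by
      funext x
      simp
    rw [e]
    exact (Rel.const F false).mono le_rfl le_rfl (by simp) le_rfl
  | @insert a S ha ih =>
    have h1 := ih fun i hi => h i (Finset.mem_insert_of_mem hi)
    have h2 := h1.trans' (Rel.or (F := F ∪ {fun x => decide (∃ i ∈ S, g i x = true)}) (u := g a)
      (v := fun x => decide (∃ i ∈ S, g i x = true))
      (Or.inl (h a (Finset.mem_insert_self _ _))) (Or.inr rfl))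
    have e : (fun x => decide (∃ i ∈ insert a S, g i x = true)) =
        fun x => g a x || decide (∃ i ∈ S, g i x = true) := by
      funext x
      rw [Bool.eq_iff_iff, decide_eq_true_iff, Bool.or_eq_true, decide_eq_true_iff,
        Finset.exists_mem_insert]
    rw [e]
    exact h2.mono le_rfl le_rfl (by rw [Finset.card_insert_of_notMem ha]) le_rfl

theorem TRC_step {n M : ℕ} (E : Fin M → Fin M → Fn n) (F : Set (Fn n)) (i : ℕ)
    (hE : ∀ u v, E u v ∈ F) (hD : ∀ u v, TRC_D E i u v ∈ F) (u v : Fin M) :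
    Rel F (2 * M + 2) 0 {TRC_D E (i + 1) u v} := by
  have h1 : Rel F ((univ : Finset (Fin M)).card * 1) 0
      (⋃ w ∈ (univ : Finset (Fin M)), {fun x => TRC_D E i u w x && E w v x}) :=
    Rel.biUnion _ _ fun w _ => Rel.and (hD u w) (hE w v)
  have h2 := h1.trans (TRC_or (F := F ∪ ⋃ w ∈ (univ : Finset (Fin M)),
      {fun x => TRC_D E i u w x && E w v x}) (univ : Finset (Fin M))
      (fun w x => TRC_D E i u w x && E w v x) (fun w hw => Or.inr (by
        simp only [Set.mem_iUnion]
        exact ⟨w, hw, rfl⟩)))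
  have h3 := h2.trans' (Rel.or (F := F ∪ ((⋃ w ∈ (univ : Finset (Fin M)),
      {fun x => TRC_D E i u w x && E w v x}) ∪ {TRC_any (univ : Finset (Fin M))
        (fun w x => TRC_D E i u w x && E w v x)})) (u := TRC_D E i u v)
      (v := TRC_any (univ : Finset (Fin M)) (fun w x => TRC_D E i u w x && E w v x))
      (Or.inl (hD u v)) (Or.inr (Or.inr rfl)))
  refine h3.mono le_rfl ?_ ?_ le_rfl
  · intro f hf
    exact hf
  · rw [Finset.card_univ, Fintype.card_fin]
    omega

theorem TRC_all {n M : ℕ} (E : Fin M → Fin M → Fn n) (i : ℕ) :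
    Rel (Set.range fun q : Fin M × Fin M => E q.1 q.2) (M * M + i * (M * M * (2 * M + 2))) 0
      (Set.range fun q : Fin M × Fin M => TRC_D E i q.1 q.2) := by
  induction i with
  | zero =>
    have h := Rel.biUnion (F := Set.range fun q : Fin M × Fin M => E q.1 q.2)
      (univ : Finset (Fin M × Fin M)) (fun q => {fun _ => decide (q.1 = q.2)})
      (fun q _ => Rel.const _ (decide (q.1 = q.2)))
    refine h.mono le_rfl ?_ ?_ le_rfl
    · rintro _ ⟨q, rfl⟩
      simp only [Set.mem_iUnion]
      exact ⟨q, Finset.mem_univ _, rfl⟩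
    · simp
  | succ i ih =>
    have h := Rel.biUnion (F := (Set.range fun q : Fin M × Fin M => E q.1 q.2) ∪
        Set.range fun q : Fin M × Fin M => TRC_D E i q.1 q.2)
      (univ : Finset (Fin M × Fin M)) (fun q => {TRC_D E (i + 1) q.1 q.2})
      (fun q _ => TRC_step E _ i (fun u v => Or.inl ⟨(u, v), rfl⟩)
        (fun u v => Or.inr ⟨(u, v), rfl⟩) q.1 q.2)
    have h2 := ih.trans' h
    refine h2.mono le_rfl ?_ ?_ le_rfl
    · rintro _ ⟨q, rfl⟩
      simp only [Set.mem_iUnion]
      exact ⟨q, Finset.mem_univ _, rfl⟩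
    · rw [Finset.card_univ, Fintype.card_prod, Fintype.card_fin]
      have : (i + 1) * (M * M * (2 * M + 2)) = i * (M * M * (2 * M + 2)) + M * M * (2 * M + 2) := by
        ring
      omega

/-- the vertices which can be reached from `u` in at most `i` steps -/
def TRC_S {n M : ℕ} (E : Fin M → Fin M → Fn n) (x : Fin n → Bool) (u : Fin M) (i : ℕ) :
    Finset (Fin M) := univ.filter fun v => TRC_D E i u v x = true

theorem TRC_S_succ {n M : ℕ} (E : Fin M → Fin M → Fn n) (x : Fin n → Bool) (u : Fin M) (i : ℕ)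
    (v : Fin M) : v ∈ TRC_S E x u (i + 1) ↔
      v ∈ TRC_S E x u i ∨ ∃ w ∈ TRC_S E x u i, E w v x = true := by
  unfold TRC_S
  simp only [Finset.mem_filter, Finset.mem_univ, true_and]
  change (TRC_D E i u v x || TRC_any (univ : Finset (Fin M))
    (fun w x => TRC_D E i u w x && E w v x) x) = true ↔ _
  rw [Bool.or_eq_true, TRC_any_iff]
  simp only [Finset.mem_univ, true_and, Bool.and_eq_true]

theorem TRC_S_sub {n M : ℕ} (E : Fin M → Fin M → Fn n) (x : Fin n → Bool) (u : Fin M) (i : ℕ) :
    TRC_S E x u i ⊆ TRC_S E x u (i + 1) := by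
  intro v hv
  rw [TRC_S_succ]
  exact Or.inl hv

theorem TRC_S_sound {n M : ℕ} (E : Fin M → Fin M → Fn n) (x : Fin n → Bool) (u : Fin M) (i : ℕ)
    (v : Fin M) (hv : v ∈ TRC_S E x u i) :
    Relation.ReflTransGen (fun u v => E u v x = true) u v := by
  induction i generalizing v with
  | zero =>
    have h := (Finset.mem_filter.1 hv).2
    change decide (u = v) = true at h
    rw [decide_eq_true_iff] at h
    rw [h]
  | succ i ih =>
    rw [TRC_S_succ] at hv
    rcases hv with hv | ⟨w, hw, hE⟩
    · exact ih v hv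
    · exact (ih w hw).tail hE

theorem TRC_S_stab {n M : ℕ} (E : Fin M → Fin M → Fn n) (x : Fin n → Bool) (u : Fin M) (i j : ℕ)
    (h : TRC_S E x u (i + 1) = TRC_S E x u i) : TRC_S E x u (i + j) = TRC_S E x u i := by
  induction j with
  | zero => rfl
  | succ j ih =>
    ext v
    rw [← add_assoc, TRC_S_succ, ih, ← TRC_S_succ, h]

theorem TRC_S_dich {n M : ℕ} (E : Fin M → Fin M → Fn n) (x : Fin n → Bool) (u : Fin M) (i : ℕ) :
    (∃ j ≤ i, TRC_S E x u (j + 1) = TRC_S E x u j) ∨ i + 1 ≤ (TRC_S E x u i).card := by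
  induction i with
  | zero =>
    right
    have : u ∈ TRC_S E x u 0 := Finset.mem_filter.2 ⟨Finset.mem_univ _, decide_eq_true rfl⟩
    have h2 : 0 < (TRC_S E x u 0).card := Finset.card_pos.2 ⟨u, this⟩
    omega
  | succ i ih =>
    rcases ih with ⟨j, hj, h⟩ | h
    · exact Or.inl ⟨j, by omega, h⟩
    · by_cases he : TRC_S E x u (i + 1) = TRC_S E x u i
      · exact Or.inl ⟨i, by omega, he⟩
      · right
        have hss : TRC_S E x u i ⊂ TRC_S E x u (i + 1) :=
          Finset.ssubset_iff_subset_ne.2 ⟨TRC_S_sub E x u i, fun h' => he h'.symm⟩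
        have := Finset.card_lt_card hss
        omega

theorem TRC_S_M {n M : ℕ} (E : Fin M → Fin M → Fn n) (x : Fin n → Bool) (u v : Fin M) :
    v ∈ TRC_S E x u M ↔ Relation.ReflTransGen (fun u v => E u v x = true) u v := by
  constructor
  · exact TRC_S_sound E x u M v
  · intro h
    rcases TRC_S_dich E x u M with ⟨j, hj, hst⟩ | hc
    · have hM : TRC_S E x u M = TRC_S E x u j := by
        have := TRC_S_stab E x u j (M - j) hst
        rwa [Nat.add_sub_cancel' hj] at this
      rw [hM]
      have hu : ∀ i, u ∈ TRC_S E x u i := by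
        intro i
        induction i with
        | zero => exact Finset.mem_filter.2 ⟨Finset.mem_univ _, decide_eq_true rfl⟩
        | succ i ih => exact TRC_S_sub E x u i ih
      induction h with
      | refl => exact hu j
      | tail _ hE ih =>
        rw [← hst, TRC_S_succ]
        exact Or.inr ⟨_, ih, hE⟩
    · have h2 : (TRC_S E x u M).card ≤ M := by
        refine le_trans (Finset.card_le_univ _) ?_
        rw [Fintype.card_fin]
      omega

open Classical in
theorem TRC : TRC_stmt := by
  intro n M E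
  have h := TRC_all E M
  refine h.mono le_rfl ?_ ?_ (Nat.zero_le _)
  · rintro _ ⟨q, rfl⟩
    refine ⟨q, ?_⟩
    funext x
    change TRC_D E M q.1 q.2 x = _
    rw [Bool.eq_iff_iff, decide_eq_true_iff, ← TRC_S_M]
    unfold TRC_S
    simp only [Finset.mem_filter, Finset.mem_univ, true_and]
  · nlinarith [Nat.zero_le M, Nat.zero_le (M * M), Nat.zero_le (M * M * M),
      Nat.zero_le (M * M * M * M), sq_nonneg (M * M)]

end Pool.Agent.SGK
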